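import Pool.Agent.Helper28.PC.Ram

/-!
# The post-critical form
-/

set_option autoImplicit false

namespace Pool.Agent.Helper28.PC

open MvPolynomial

section ufd

variable {R : Type} [CommRing R] [IsDomain R] [UniqueFactorizationMonoid R]

/-- A squarefree element divides `q` as soon as its irreducible factors do. -/
theorem dvd_of_squarefree_of_irreducible (y : R) : ∀ q : R, Squarefree y →
    (∀ P, Irreducible P → P ∣ y → P ∣ q) → y ∣ q := by
  induction y using WfDvdMonoid.induction_on_irreducible with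
  | zero =>
    intro q hy _
    exact absurd hy not_squarefree_zero
  | unit u hu =>
    intro q _ _
    exact hu.dvd
  | mul a i ha hi ih =>
    intro q hy hq
    obtain ⟨b, rfl⟩ := ih q (hy.squarefree_of_dvd (dvd_mul_left _ _))
      (fun P hP hPa => hq P hP (hPa.trans (dvd_mul_left _ _)))
    rcases hi.prime.dvd_or_dvd (hq i hi (dvd_mul_right _ _)) with h | h
    · obtain ⟨c, rfl⟩ := h
      exact absurd (hy i ⟨c, by ring⟩) hi.not_isUnit
    · obtain ⟨c, rfl⟩ := h
      exact ⟨c, by ring⟩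

end ufd

variable {ι K L : Type} [Fintype ι] [DecidableEq ι] [Field K] [CharZero K] [Field L] [Algebra K L]
  [IsAlgClosed L]

omit [DecidableEq ι] [CharZero K] in
/-- A form which vanishes at all zeros of a squarefree one is divisible by it. -/
theorem dvd_of_zeros {g H : MvPolynomial ι K} (hg : Squarefree g)
    (h : ∀ x : ι → L, aeval x g = 0 → aeval x H = 0) : g ∣ H := by
  have h1 : H ∈ (Ideal.span {g}).radical := by
    rw [← MvPolynomial.vanishingIdeal_zeroLocus_eq_radical (K := L)]
    rw [MvPolynomial.mem_vanishingIdeal_iff]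
    intro x hx
    rw [MvPolynomial.mem_zeroLocus_iff] at hx
    exact h x (hx g (Ideal.mem_span_singleton_self g))
  obtain ⟨n, hn⟩ := h1
  rw [Ideal.mem_span_singleton] at hn
  rcases Nat.eq_zero_or_pos n with rfl | hpos
  · rw [pow_zero] at hn
    exact (isUnit_of_dvd_one hn).dvd
  · exact (hg.dvd_pow_iff_dvd hpos.ne').1 hn

theorem exists_invariant {d : ℕ} {F : ι → MvPolynomial ι K} (hd : 0 < d)
    (hF : ∀ i, (F i).IsHomogeneous d)
    (hnz : ∀ x : ι → L, (∀ i, aeval x (F i) = 0) → x = 0)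
    {G : MvPolynomial ι K} {e : ℕ} (hG : G.IsHomogeneous e) (hG0 : G ≠ 0)
    (hJ : ∀ x : ι → L, aeval x (jac F) = 0 → aeval x G = 0)
    (hinv : ∀ x : ι → L, aeval x G = 0 → aeval (fun i => aeval x (F i)) G = 0) :
    ∃ (g q Q : MvPolynomial ι K) (D E n : ℕ), g ≠ 0 ∧ g.IsHomogeneous D ∧ q.IsHomogeneous E ∧
      aeval F g = g * q ∧ q ^ n = jac F * Q ∧
      ∀ x : ι → L, aeval x g = 0 ↔ aeval x G = 0 := by
  classical
  obtain ⟨g, m, hsq, hgG, hGg⟩ := exists_squarefree_dvd_pow_of_ne_zero hG0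
  have hg0 : g ≠ 0 := hsq.ne_zero
  have hzero : ∀ x : ι → L, aeval x g = 0 ↔ aeval x G = 0 := by
    intro x
    constructor
    · intro h
      obtain ⟨c, hc⟩ := hgG
      rw [hc, map_mul, h, zero_mul]
    · intro h
      obtain ⟨c, hc⟩ := hGg
      have h1 := congrArg (aeval x) hc
      rw [map_pow, map_mul, h, zero_mul] at h1
      exact eq_zero_of_pow_eq_zero h1
  obtain ⟨D, hgD⟩ := isHomogeneous_of_dvd hG hG0 hgG
  have hcomp : ∀ (x : ι → L) (p : MvPolynomial ι K),
      aeval x (aeval F p) = aeval (fun i => aeval x (F i)) p := by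
    intro x p
    rw [← AlgHom.comp_apply, comp_aeval]
  -- the quotient
  have hdvd : g ∣ aeval F g := by
    refine dvd_of_zeros (L := L) hsq fun x hx => ?_
    rw [hcomp]
    have h1 := hinv x ((hzero x).1 hx)
    exact (hzero _).2 h1
  obtain ⟨q, hq⟩ := hdvd
  have hqhom : ∃ E, q.IsHomogeneous E := by
    by_cases h0 : q = 0
    · exact ⟨0, by rw [h0]; exact isHomogeneous_zero _ _ _⟩
    · have h1 : (aeval F g).IsHomogeneous (d * D) := hgD.aeval F hF
      refine isHomogeneous_of_dvd h1 ?_ ⟨g, by rw [hq, mul_comm]⟩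
      rw [hq]
      exact mul_ne_zero hg0 h0
  obtain ⟨E, hqE⟩ := hqhom
  -- the irreducible factors of the Jacobian divide the quotient
  have hint := isIntegral_adjoin (L := L) hd hF hnz
  have hfac : ∀ P, Irreducible P → P ∣ jac F → P ∣ q := by
    intro P hP hPJ
    have hPg : P ∣ g := by
      refine dvd_of_zeros (L := L) hP.squarefree fun x hx => ?_
      rw [hzero]
      apply hJ
      obtain ⟨c, hc⟩ := hPJ
      rw [hc, map_mul, hx, zero_mul]
    have h1 := sq_dvd_aeval hint hP hPJ (hPg.trans ⟨q, hq⟩)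
    obtain ⟨g', rfl⟩ := hPg
    rw [hq, mul_assoc] at h1
    have h2 : P ∣ g' * q := (mul_dvd_mul_iff_left hP.ne_zero).1 h1
    rcases hP.prime.dvd_or_dvd h2 with h3 | h3
    · obtain ⟨c, rfl⟩ := h3
      exact absurd (hsq P ⟨c, by ring⟩) hP.not_isUnit
    · exact h3
  have hJ0 : jac F ≠ 0 := by
    intro h0
    apply hG0
    have h1 : ∀ x : ι → L, aeval x G = 0 := by
      intro x
      apply hJ
      rw [h0, map_zero]
    have h2 : map (algebraMap K L) G = 0 := by
      apply MvPolynomial.funext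
      intro x
      rw [map_zero, eval_map]
      exact h1 x
    exact (map_injective _ (algebraMap K L).injective) (by rw [h2, map_zero])
  obtain ⟨y, n, hy, hyJ, hJy⟩ := exists_squarefree_dvd_pow_of_ne_zero hJ0
  have hyq : y ∣ q := dvd_of_squarefree_of_irreducible y q hy
    fun P hP hPy => hfac P hP (hPy.trans hyJ)
  obtain ⟨Q, hQ⟩ := hJy.trans (pow_dvd_pow_of_dvd hyq n)
  exact ⟨g, q, Q, D, E, n, hg0, hgD, hqE, hq, hQ, hzero⟩

end Pool.Agent.Helper28.PC
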