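import Mathlib

/-!
# Factors of homogeneous polynomials are homogeneous
-/

set_option autoImplicit false

namespace Pool.Agent.Helper28.PC

open MvPolynomial

variable {σ R : Type*} [CommRing R]

/-- The substitution `X_i ↦ T X_i`. -/
noncomputable def grade : MvPolynomial σ R →ₐ[R] Polynomial (MvPolynomial σ R) :=
  aeval fun i => Polynomial.X * Polynomial.C (X i)

theorem grade_monomial (m : σ →₀ ℕ) (c : R) :
    grade (monomial m c) = Polynomial.monomial m.degree (monomial m c) := by
  classical
  unfold grade
  rw [aeval_monomial]
  have h1 : (m.prod fun i k => (Polynomial.X * Polynomial.C (X i : MvPolynomial σ R)) ^ k) =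
      Polynomial.X ^ m.degree * Polynomial.C (m.prod fun i k => (X i : MvPolynomial σ R) ^ k) := by
    simp only [mul_pow]
    rw [Finsupp.prod_mul]
    congr 1
    · rw [Finsupp.prod, Finset.prod_pow_eq_pow_sum]; rfl
    · rw [Finsupp.prod, Finsupp.prod, map_prod]
      exact Finset.prod_congr rfl fun i _ => by rw [map_pow]
  rw [h1, monomial_eq (s := m) (a := c), ← Polynomial.C_mul_X_pow_eq_monomial]
  have h2 : algebraMap R (Polynomial (MvPolynomial σ R)) c =
      Polynomial.C (C c : MvPolynomial σ R) := rfl
  rw [h2, map_mul]
  ring

theorem grade_of_isHomogeneous {p : MvPolynomial σ R} {n : ℕ} (hp : p.IsHomogeneous n) :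
    grade p = Polynomial.monomial n p := by
  classical
  conv_lhs => rw [p.as_sum]
  conv_rhs => rw [p.as_sum]
  rw [map_sum, map_sum]
  refine Finset.sum_congr rfl fun m hm => ?_
  rw [grade_monomial]
  have : m.degree = n := by
    have h := hp (mem_support_iff.1 hm)
    rw [← h, Finsupp.degree_eq_weight_one]
    rfl
  rw [this]

theorem eval_one_grade (p : MvPolynomial σ R) : (grade p).eval 1 = p := by
  have h : ((Polynomial.evalRingHom (1 : MvPolynomial σ R)).comp
      (grade (σ := σ) (R := R)).toRingHom) = RingHom.id _ := by
    apply MvPolynomial.ringHom_ext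
    · intro r
      simp [grade]
    · intro i
      simp [grade]
  exact congrArg (fun φ => φ p) h

theorem coeff_grade (p : MvPolynomial σ R) (n : ℕ) :
    (grade p).coeff n = homogeneousComponent n p := by
  classical
  have h : ∀ q : MvPolynomial σ R, grade q = ∑ i ∈ Finset.range (q.totalDegree + 1),
      Polynomial.monomial i (homogeneousComponent i q) := by
    intro q
    conv_lhs => rw [← sum_homogeneousComponent q]
    rw [map_sum]
    exact Finset.sum_congr rfl fun i _ =>
      grade_of_isHomogeneous (homogeneousComponent_isHomogeneous i q)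
  rw [h, Polynomial.finsetSum_coeff]
  simp only [Polynomial.coeff_monomial]
  rw [Finset.sum_ite_eq']
  split_ifs with hn
  · rfl
  · rw [homogeneousComponent_eq_zero]
    rw [Finset.mem_range] at hn
    omega

/-- A factor of a nonzero homogeneous polynomial over a domain is homogeneous. -/
theorem isHomogeneous_of_dvd [IsDomain R] {a f : MvPolynomial σ R} {n : ℕ}
    (hf : f.IsHomogeneous n) (hf0 : f ≠ 0) (h : a ∣ f) : ∃ m, a.IsHomogeneous m := by
  classical
  obtain ⟨b, rfl⟩ := h
  have ha0 : a ≠ 0 := left_ne_zero_of_mul hf0
  have hb0 : b ≠ 0 := right_ne_zero_of_mul hf0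
  have hinj : ∀ p : MvPolynomial σ R, p ≠ 0 → grade p ≠ 0 := by
    intro p hp h0
    apply hp
    rw [← eval_one_grade p, h0, Polynomial.eval_zero]
  have hga := hinj a ha0
  have hgb := hinj b hb0
  have h1 : grade a * grade b = Polynomial.monomial n (a * b) := by
    rw [← map_mul, grade_of_isHomogeneous hf]
  have hd : (grade a).natDegree + (grade b).natDegree = n := by
    rw [← Polynomial.natDegree_mul hga hgb, h1, Polynomial.natDegree_monomial_eq _ hf0]
  have ht : (grade a).natTrailingDegree + (grade b).natTrailingDegree = n := by
    rw [← Polynomial.natTrailingDegree_mul hga hgb, h1,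
      Polynomial.natTrailingDegree_monomial hf0]
  have hla := Polynomial.natTrailingDegree_le_natDegree (grade a)
  have hlb := Polynomial.natTrailingDegree_le_natDegree (grade b)
  have heq : (grade a).natTrailingDegree = (grade a).natDegree := by omega
  refine ⟨(grade a).natDegree, ?_⟩
  have h2 : grade a = Polynomial.monomial (grade a).natDegree
      ((grade a).coeff (grade a).natDegree) := by
    ext1 i
    rw [Polynomial.coeff_monomial]
    rcases lt_trichotomy i (grade a).natDegree with hi | hi | hi
    · rw [if_neg hi.ne', Polynomial.coeff_eq_zero_of_lt_natTrailingDegree (by omega)]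
    · rw [if_pos hi.symm, hi]
    · rw [if_neg hi.ne, Polynomial.coeff_eq_zero_of_natDegree_lt hi]
  have h3 : a = (grade a).coeff (grade a).natDegree := by
    conv_lhs => rw [← eval_one_grade a, h2]
    rw [Polynomial.eval_monomial, one_pow, mul_one]
  rw [coeff_grade] at h3
  rw [h3]
  have h4 := homogeneousComponent_isHomogeneous (R := R) (grade a).natDegree a
  rw [← h3]
  rw [← h3] at h4
  exact h4

end Pool.Agent.Helper28.PC
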