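import Pool.Agent.Helper28.PC.Alg

/-!
# The image of a hypersurface under a finite map is a hypersurface
-/

set_option autoImplicit false

namespace Pool.Agent.Helper28.PC

open MvPolynomial

variable {ι k : Type} [Fintype ι] [Field k] {F : ι → MvPolynomial ι k}

theorem algebraicIndependent_of_integral
    (hint : ∀ x : MvPolynomial ι k, IsIntegral (Algebra.adjoin k (Set.range F)) x) :
    AlgebraicIndependent k F := by
  have halg : Algebra.IsAlgebraic (Algebra.adjoin k (Set.range F)) (MvPolynomial ι k) :=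
    ⟨fun x => (hint x).isAlgebraic⟩
  have h := Algebra.IsAlgebraic.isTranscendenceBasis_of_le_trdeg_of_finite k F (by
    rw [MvPolynomial.trdeg_of_isDomain]
    simp)
  exact h.1

/-- A prime ideal properly contained in a principal prime ideal is zero. -/
theorem eq_bot_of_lt_span {R : Type} [CommRing R] [IsDomain R] [UniqueFactorizationMonoid R]
    {P : R} (hP : Irreducible P) {Q : Ideal R} (hQ : Q.IsPrime) (hlt : Q < Ideal.span {P}) :
    Q = ⊥ := by
  by_contra hne
  obtain ⟨x, hx, hx0⟩ := Submodule.exists_mem_ne_zero_of_ne_bot hne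
  obtain ⟨n, u, hu, hxu⟩ := WfDvdMonoid.max_power_factor hx0 hP
  rw [hxu] at hx
  rcases hQ.mem_or_mem hx with h | h
  · have h1 : P ∈ Q := hQ.mem_of_pow_mem n h
    exact absurd ((Ideal.span_singleton_le_iff_mem Q).2 h1) (not_le_of_gt hlt)
  · have h1 := hlt.le h
    rw [Ideal.mem_span_singleton] at h1
    exact hu h1

/-- If the irreducible polynomial `P` divides `P₁ ∘ F` with `P₁` irreducible, then `P₁` divides
every `p` such that `P` divides `p ∘ F`. -/
theorem dvd_of_dvd_comp
    (hint : ∀ x : MvPolynomial ι k, IsIntegral (Algebra.adjoin k (Set.range F)) x)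
    {P P₁ p : MvPolynomial ι k} (hP : Irreducible P) (hP₁ : Irreducible P₁)
    (h₁ : P ∣ aeval F P₁) (hp : P ∣ aeval F p) : P₁ ∣ p := by
  classical
  by_contra hcon
  have hai := algebraicIndependent_of_integral hint
  let B := Algebra.adjoin k (Set.range F)
  let e : MvPolynomial ι k ≃ₐ[k] B := hai.aevalEquiv
  have he : ∀ q, ((e q : B) : MvPolynomial ι k) = aeval F q := fun q =>
    hai.algebraMap_aevalEquiv q
  have hBint : Algebra.IsIntegral B (MvPolynomial ι k) := ⟨hint⟩
  have hBic : IsIntegrallyClosed B := IsIntegrallyClosed.of_equiv e.toRingEquiv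
  have hgd : Algebra.HasGoingDown B (MvPolynomial ι k) := inferInstance
  have hPprime : (Ideal.span {P} : Ideal (MvPolynomial ι k)).IsPrime := by
    rw [Ideal.span_singleton_prime hP.ne_zero]
    exact hP.prime
  let pp : Ideal B := (Ideal.span {P} : Ideal (MvPolynomial ι k)).under B
  have hpp : pp.IsPrime := inferInstance
  have hmem : ∀ q, e q ∈ pp ↔ P ∣ aeval F q := by
    intro q
    rw [← he q, ← Ideal.mem_span_singleton]
    rfl
  let rr : Ideal B := Ideal.span {e P₁}
  have hprime : Prime (e P₁) := (MulEquiv.prime_iff e.toMulEquiv).2 hP₁.prime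
  have hrr : rr.IsPrime := by
    rw [Ideal.span_singleton_prime hprime.ne_zero]
    exact hprime
  have hlt : rr < pp := by
    refine lt_of_le_of_ne ((Ideal.span_singleton_le_iff_mem pp).2 ((hmem P₁).2 h₁)) ?_
    intro heq
    apply hcon
    have h2 : e p ∈ rr := by
      rw [heq]
      exact (hmem p).2 hp
    rw [Ideal.mem_span_singleton] at h2
    obtain ⟨c, hc⟩ := h2
    obtain ⟨c', rfl⟩ := e.surjective c
    rw [← map_mul] at hc
    exact ⟨c', e.injective hc⟩
  have hlo : (Ideal.span {P} : Ideal (MvPolynomial ι k)).LiesOver pp := ⟨rfl⟩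
  obtain ⟨Q, hQlt, hQprime, hQlo⟩ :=
    Ideal.exists_ideal_lt_liesOver_of_lt (Ideal.span {P} : Ideal (MvPolynomial ι k)) hlt
  have hQ := eq_bot_of_lt_span hP hQprime hQlt
  have h3 : e P₁ ∈ Q.under B := by
    rw [← hQlo.over]
    exact Ideal.mem_span_singleton_self _
  rw [hQ] at h3
  have h4 : aeval F P₁ = 0 := by
    have h5 : ((e P₁ : B) : MvPolynomial ι k) ∈ (⊥ : Ideal (MvPolynomial ι k)) := h3
    rw [he] at h5
    simpa using h5
  have h6 : e P₁ = 0 := Subtype.ext (by rw [he, h4]; rfl)
  exact hprime.ne_zero h6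

end Pool.Agent.Helper28.PC
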