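import Pool.Agent.Helper28.PC.Hom
import Pool.Agent.Helper36.Growth

/-!
# Ramification of finite polynomial maps along their critical locus
-/

set_option autoImplicit false

namespace Pool.Agent.Helper28.PC

open MvPolynomial

/-- The Jacobian determinant. -/
noncomputable def jac {ι K : Type} [Fintype ι] [DecidableEq ι] [CommRing K]
    (F : ι → MvPolynomial ι K) : MvPolynomial ι K :=
  (Matrix.of fun i j => pderiv j (F i)).det

section der

variable {k : Type} [Field k]

/-- A derivation of a domain of characteristic zero which kills a subalgebra kills everything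
that is algebraic over it. -/
theorem der_algebraic {S : Type} [CommRing S] [IsDomain S] [Algebra k S] [CharZero S]
    (R : Subalgebra k S) (D : Derivation k S S) (hD : ∀ a ∈ R, D a = 0) (x : S)
    (n : ℕ) : ∀ P : Polynomial R, P ≠ 0 → P.natDegree ≤ n → Polynomial.aeval x P = 0 →
      D x = 0 := by
  have hchar : CharZero R := ⟨fun a b h => by
    have h1 : ((a : R) : S) = ((b : R) : S) := by rw [h]
    push_cast at h1
    exact_mod_cast h1⟩
  have key : ∀ P : Polynomial R,
      D (Polynomial.aeval x P) = Polynomial.aeval x (Polynomial.derivative P) * D x := by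
    intro P
    induction P using Polynomial.induction_on' with
    | add p q hp hq => rw [map_add, map_add, hp, hq, Polynomial.derivative_add, map_add, add_mul]
    | monomial m a =>
      rw [Polynomial.aeval_monomial, Derivation.leibniz, Derivation.leibniz_pow]
      have ha : D (algebraMap R S a) = 0 := hD _ a.2
      rw [ha, smul_zero, add_zero, Polynomial.derivative_monomial, Polynomial.aeval_monomial]
      simp only [smul_eq_mul, nsmul_eq_mul, map_mul, map_natCast]
      ring
  induction n with
  | zero =>
    intro P hP hdeg h0
    exfalso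
    have h1 : P = Polynomial.C (P.coeff 0) :=
      Polynomial.eq_C_of_natDegree_eq_zero (Nat.le_zero.1 hdeg)
    rw [h1, Polynomial.aeval_C] at h0
    apply hP
    rw [h1]
    have h2 : P.coeff 0 = 0 := Subtype.ext h0
    rw [h2, Polynomial.C_0]
  | succ n ih =>
    intro P hP hdeg h0
    rcases Nat.eq_zero_or_pos P.natDegree with hz | hpos
    · exact ih P hP (by omega) h0
    · have h1 := key P
      rw [h0, map_zero] at h1
      rcases mul_eq_zero.1 h1.symm with h2 | h2
      · refine ih (Polynomial.derivative P) ?_ ?_ h2
        · intro h3
          have := Polynomial.derivative_eq_zero.1 h3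
          omega
        · have := Polynomial.natDegree_derivative_lt (p := P) (by omega)
          omega
      · exact h2

/-- A derivation which preserves the kernel of a surjection induces a derivation. -/
theorem der_quot {S A : Type} [CommRing S] [CommRing A] [Algebra k S]
    [Algebra k A] (π : S →ₐ[k] A) (hπ : Function.Surjective π) (D : Derivation k S S)
    (hker : ∀ a, π a = 0 → π (D a) = 0) :
    ∃ D' : Derivation k A A, ∀ s, D' (π s) = π (D s) := by
  have hw : ∀ s t : S, π s = π t → π (D s) = π (D t) := by
    intro s t h
    have h1 : π (s - t) = 0 := by rw [map_sub, h, sub_self]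
    have h2 := hker _ h1
    rw [map_sub, map_sub, sub_eq_zero] at h2
    exact h2
  have hs : ∀ a, π (Function.surjInv hπ a) = a := Function.surjInv_eq hπ
  let L : A →ₗ[k] A :=
    { toFun := fun a => π (D (Function.surjInv hπ a))
      map_add' := by
        intro a b
        rw [← map_add, ← map_add]
        exact hw _ _ (by rw [hs, map_add, hs, hs])
      map_smul' := by
        intro c a
        have h1 : c • π (D (Function.surjInv hπ a)) = π (D (c • Function.surjInv hπ a)) := by
          rw [D.map_smul, map_smul]
        rw [RingHom.id_apply, h1]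
        exact hw _ _ (by rw [hs, map_smul, hs]) }
  have hL : ∀ s, L (π s) = π (D s) := fun s => hw _ _ (hs _)
  refine ⟨Derivation.mk' L ?_, hL⟩
  intro a b
  obtain ⟨s, rfl⟩ := hπ a
  obtain ⟨t, rfl⟩ := hπ b
  rw [← map_mul, hL, hL, hL, Derivation.leibniz, map_add, smul_eq_mul, smul_eq_mul, map_mul,
    map_mul, smul_eq_mul, smul_eq_mul]

end der

section int

variable {ι K L : Type} [Fintype ι] [Field K] [Field L] [Algebra K L] [IsAlgClosed L]

/-- All polynomials are integral over the subalgebra generated by forms without common zero. -/
theorem isIntegral_adjoin {d : ℕ} {F : ι → MvPolynomial ι K} (hd : 0 < d)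
    (hF : ∀ i, (F i).IsHomogeneous d)
    (hnz : ∀ x : ι → L, (∀ i, aeval x (F i) = 0) → x = 0) (x : MvPolynomial ι K) :
    IsIntegral (Algebra.adjoin K (Set.range F)) x := by
  classical
  obtain ⟨M, q, hqh, hq⟩ := Pool.Agent.Helper36.exists_nullstellensatz (L := L) F hF hnz
  set R := Algebra.adjoin K (Set.range F) with hR
  set B : ℕ := Fintype.card ι * (M + d) + 1 with hB
  let T : Finset (MvPolynomial ι K) :=
    ((Finset.range B).biUnion fun n => (Finset.univ : Finset ι).finsuppAntidiag n).image
      fun m => monomial m 1
  let N : Submodule R (MvPolynomial ι K) := Submodule.span R (T : Set _)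
  have hmem : ∀ n : ℕ, ∀ P : MvPolynomial ι K, P.IsHomogeneous n → P ∈ N := by
    intro n
    induction n using Nat.strong_induction_on with
    | _ n ih =>
      intro P hP
      rw [P.as_sum]
      refine Submodule.sum_mem _ fun m hm => ?_
      have hdegm : m.degree = n := by
        have := hP (mem_support_iff.1 hm)
        rw [← this, Finsupp.degree_eq_weight_one]
        rfl
      have hsum : ∑ i, m i = n := by
        rw [← hdegm, Finsupp.degree_eq_sum]
      by_cases hnB : n < B
      · have h1 : monomial m (P.coeff m) =
            (algebraMap K R (P.coeff m)) • (monomial m (1 : K)) := by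
          rw [Algebra.smul_def]
          change _ = (C (P.coeff m)) * _
          rw [C_mul_monomial, mul_one]
        rw [h1]
        refine Submodule.smul_mem _ _ (Submodule.subset_span ?_)
        rw [Finset.mem_coe, Finset.mem_image]
        refine ⟨m, ?_, rfl⟩
        rw [Finset.mem_biUnion]
        refine ⟨n, Finset.mem_range.2 hnB, ?_⟩
        rw [Finset.mem_finsuppAntidiag]
        exact ⟨hsum, Finset.subset_univ _⟩
      · have h2 : ∃ j, M + d ≤ m j := by
          by_contra hcon
          push Not at hcon
          have h0 : ∑ i, m i ≤ ∑ _i : ι, (M + d) :=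
            Finset.sum_le_sum fun i _ => (hcon i).le
          rw [Finset.sum_const, Finset.card_univ, smul_eq_mul, hsum] at h0
          omega
        obtain ⟨j, hj⟩ := h2
        set r : ι →₀ ℕ := m - Finsupp.single j (M + d) with hr
        have hmr : m = Finsupp.single j (M + d) + r := by
          rw [hr, add_tsub_cancel_of_le]
          rwa [Finsupp.single_le_iff]
        have hrdeg : (M + d) + r.degree = n := by
          rw [← hdegm, hmr, map_add, Finsupp.degree_single]
        have h3 : monomial m (P.coeff m) = ∑ i, F i * (q (j, i) * monomial r (P.coeff m)) := by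
          have h4 : monomial m (P.coeff m) = X j ^ (M + d) * monomial r (P.coeff m) := by
            rw [X_pow_eq_monomial, monomial_mul, one_mul, ← hmr]
          rw [h4, ← hq j, Finset.sum_mul]
          refine Finset.sum_congr rfl fun i _ => ?_
          ring
        rw [h3]
        refine Submodule.sum_mem _ fun i _ => ?_
        have h5 : q (j, i) * monomial r (P.coeff m) ∈ N := by
          refine ih (M + r.degree) (by omega) _ ((hqh (j, i)).mul ?_)
          exact isHomogeneous_monomial _ rfl
        have h6 : F i * (q (j, i) * monomial r (P.coeff m)) =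
            (⟨F i, Algebra.subset_adjoin ⟨i, rfl⟩⟩ : R) • (q (j, i) * monomial r (P.coeff m)) :=
          rfl
        rw [h6]
        exact Submodule.smul_mem _ _ h5
  have htop : N = ⊤ := by
    rw [eq_top_iff]
    intro P _
    rw [← sum_homogeneousComponent P]
    exact Submodule.sum_mem _ fun n _ => hmem n _ (homogeneousComponent_isHomogeneous n P)
  have hfin : Module.Finite R (MvPolynomial ι K) := ⟨⟨T, htop⟩⟩
  exact IsIntegral.of_finite R x

end int

section ram

variable {ι K : Type} [Fintype ι] [DecidableEq ι] [Field K] [CharZero K]

/-- A form pulled back by a finite map vanishes doubly along each component of the critical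
locus on which it vanishes. -/
theorem sq_dvd_aeval {F : ι → MvPolynomial ι K}
    (hint : ∀ x : MvPolynomial ι K, IsIntegral (Algebra.adjoin K (Set.range F)) x)
    {P g : MvPolynomial ι K} (hP : Irreducible P) (hJ : P ∣ jac F) (hg : P ∣ aeval F g) :
    P * P ∣ aeval F g := by
  classical
  by_contra hcon
  obtain ⟨w, hw⟩ := hg
  have hPw : ¬ P ∣ w := by
    intro h
    obtain ⟨w', rfl⟩ := h
    exact hcon ⟨w', by rw [hw]; ring⟩
  have hprime : Prime P := hP.prime
  let I : Ideal (MvPolynomial ι K) := Ideal.span {P}
  have hIprime : I.IsPrime := by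
    rw [Ideal.span_singleton_prime hprime.ne_zero]
    exact hprime
  let A := MvPolynomial ι K ⧸ I
  have hdom : IsDomain A := Ideal.Quotient.isDomain I
  let π : MvPolynomial ι K →ₐ[K] A := Ideal.Quotient.mkₐ K I
  have hπ : Function.Surjective π := Ideal.Quotient.mkₐ_surjective K I
  have hker : ∀ a, π a = 0 ↔ P ∣ a := by
    intro a
    change Ideal.Quotient.mk I a = 0 ↔ _
    rw [Ideal.Quotient.eq_zero_iff_mem, Ideal.mem_span_singleton]
  have hcharA : CharZero A := charZero_of_injective_algebraMap (algebraMap K A).injective
  -- a kernel vector over the quotient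
  let M : Matrix ι ι A := Matrix.of fun i j => π (pderiv j (F i))
  have hdet : M.det = 0 := by
    have h1 : π (jac F) = 0 := (hker _).2 hJ
    unfold jac at h1
    have h2 : π (Matrix.of fun i j => pderiv j (F i)).det = M.det := by
      have := AlgHom.map_det π (Matrix.of fun i j => pderiv j (F i))
      rw [this]
      rfl
    rw [← h2, h1]
  obtain ⟨v, hv, hMv⟩ := Matrix.exists_mulVec_eq_zero_iff.2 hdet
  choose u hu using fun i => hπ (v i)
  let D : Derivation K (MvPolynomial ι K) (MvPolynomial ι K) := ∑ j, u j • pderiv j
  have hDap : ∀ a, D a = ∑ j, u j * pderiv j a := by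
    intro a
    have h1 : ∀ s : Finset ι,
        (∑ j ∈ s, u j • pderiv j : Derivation K (MvPolynomial ι K) (MvPolynomial ι K)) a =
          ∑ j ∈ s, u j * pderiv j a := by
      intro s
      induction s using Finset.induction_on with
      | empty => rfl
      | insert j s hj ih =>
        rw [Finset.sum_insert hj, Finset.sum_insert hj, Derivation.add_apply, ih]
        rfl
    exact h1 Finset.univ
  have hDF : ∀ i, π (D (F i)) = 0 := by
    intro i
    rw [hDap, map_sum]
    have h1 := congrFun hMv i
    simp only [Matrix.mulVec, dotProduct, Pi.zero_apply] at h1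
    rw [← h1]
    refine Finset.sum_congr rfl fun j _ => ?_
    rw [map_mul, hu, mul_comm]
    rfl
  have hDc : ∀ p : MvPolynomial ι K, π (D (aeval F p)) = 0 := by
    intro p
    induction p using MvPolynomial.induction_on with
    | C a =>
      rw [algHom_C]
      have : D (algebraMap K (MvPolynomial ι K) a) = 0 := D.map_algebraMap a
      rw [this, map_zero]
    | add p q hp hq => rw [map_add, map_add, map_add, hp, hq, add_zero]
    | mul_X p i hp =>
      rw [map_mul, aeval_X, Derivation.leibniz, smul_eq_mul, smul_eq_mul, map_add, map_mul,
        map_mul, hDF, hp, mul_zero, mul_zero, add_zero]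
  have hDP : π (D P) = 0 := by
    have h1 := hDc g
    rw [hw, Derivation.leibniz, smul_eq_mul, smul_eq_mul, map_add, map_mul, map_mul,
      (hker P).2 dvd_rfl, zero_mul, zero_add] at h1
    rcases mul_eq_zero.1 h1 with h2 | h2
    · exact absurd ((hker w).1 h2) hPw
    · exact h2
  obtain ⟨D', hD'⟩ := der_quot π hπ D (by
    intro a ha
    obtain ⟨b, rfl⟩ := (hker a).1 ha
    rw [Derivation.leibniz, smul_eq_mul, smul_eq_mul, map_add, map_mul, map_mul,
      (hker P).2 dvd_rfl, zero_mul, zero_add, hDP, mul_zero])
  -- the induced derivation kills the image of the subalgebra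
  let R' : Subalgebra K A := Algebra.adjoin K (Set.range fun i => π (F i))
  have hDR : ∀ a ∈ R', D' a = 0 := by
    intro a ha
    induction ha using Algebra.adjoin_induction with
    | mem x hx =>
      obtain ⟨i, rfl⟩ := hx
      change D' (π (F i)) = 0
      rw [hD', hDF]
    | algebraMap r => exact D'.map_algebraMap r
    | add x y _ _ hx hy => rw [map_add, hx, hy, add_zero]
    | mul x y _ _ hx hy => rw [Derivation.leibniz, hx, hy, smul_zero, smul_zero, add_zero]
  have hintA : ∀ x : MvPolynomial ι K, IsIntegral R' (π x) := by
    intro x
    obtain ⟨Q, hQ, hQ0⟩ := hint x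
    have hmap : ∀ r : Algebra.adjoin K (Set.range F), π (r : MvPolynomial ι K) ∈ R' := by
      intro r
      have h1 : π (r : MvPolynomial ι K) ∈
          (Algebra.adjoin K (Set.range F)).map π := ⟨r, r.2, rfl⟩
      rw [AlgHom.map_adjoin, ← Set.range_comp] at h1
      exact h1
    let ρ : Algebra.adjoin K (Set.range F) →+* R' :=
      (π.toRingHom.comp (Algebra.adjoin K (Set.range F)).val.toRingHom).codRestrict
        R'.toSubring hmap
    refine ⟨Q.map ρ, hQ.map ρ, ?_⟩
    rw [Polynomial.eval₂_map]
    have h2 : (algebraMap R' A).comp ρ = π.toRingHom.comp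
        (algebraMap (Algebra.adjoin K (Set.range F)) (MvPolynomial ι K)) := rfl
    rw [h2]
    have h3 := Polynomial.hom_eval₂ Q (algebraMap (Algebra.adjoin K (Set.range F))
      (MvPolynomial ι K)) π.toRingHom x
    rw [hQ0] at h3
    rw [map_zero] at h3
    exact h3.symm
  apply hv
  funext j
  obtain ⟨Q, hQ, h0⟩ := hintA (X j)
  have h1 := der_algebraic R' D' hDR (π (X j)) Q.natDegree Q hQ.ne_zero le_rfl h0
  rw [hD', hDap] at h1
  have h2 : ∑ i, u i * pderiv i (X j : MvPolynomial ι K) = u j := by
    rw [Finset.sum_eq_single j]
    · simp [pderiv_X]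
    · intro b _ hb
      rw [pderiv_X, Pi.single_apply, if_neg (fun h => hb h.symm), mul_zero]
    · intro h
      exact absurd (Finset.mem_univ j) h
  rw [h2, hu] at h1
  exact h1

end ram

end Pool.Agent.Helper28.PC
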