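import Pool.Agent.Helper28.PC.Alg
import Pool.Agent.Helper72.PC.Defs

/-!
# Ramification along the critical curve: the statements of project PC
-/

set_option autoImplicit false

namespace Pool.Agent.Helper28.PC

open MvPolynomial
open Pool.Agent.Helper30.TP
open Pool.Agent.Helper72.PC (PCFdata)

theorem jac_eq_jf {K : Type} [Field K] (F : Fin 3 → MvPolynomial (Fin 3) K) : jac F = jf F := rfl

/-- If the irreducible form `P` divides the Jacobian determinant of `F` and the polynomial
`g ∘ F`, then `P ^ 2` divides `g ∘ F`. -/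
theorem sq_dvd {K : Type} [Field K] [CharZero K] {L : Type} [Field L] [IsAlgClosed L]
    [Algebra K L] {F : Fin 3 → MvPolynomial (Fin 3) K} {d : ℕ}
    (hF : ∀ i, (F i).IsHomogeneous d)
    (hnz : ∀ x : Fin 3 → L, (∀ i, aeval x (F i) = 0) → x = 0)
    {P g : MvPolynomial (Fin 3) K} (hP : Irreducible P) (hJ : P ∣ jf F) (hg : P ∣ aeval F g) :
    P ^ 2 ∣ aeval F g := by
  classical
  rcases Nat.eq_zero_or_pos d with rfl | hd
  · have hFc : ∀ i, ∃ a : K, F i = C a := by
      intro i
      exact ⟨coeff 0 (F i), totalDegree_eq_zero_iff_eq_C.1 ((hF i).totalDegree_le.antisymm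
        (Nat.zero_le _))⟩
    choose a ha using hFc
    have hFa : F = fun i => C (a i) := funext ha
    have h1 : aeval F g = C (eval a g) := by
      rw [hFa]
      exact MvPolynomial.aeval_algebraMap_apply (MvPolynomial (Fin 3) K) a g
    rw [h1] at hg ⊢
    by_cases h0 : eval a g = 0
    · rw [h0, C_0]
      exact dvd_zero _
    · exfalso
      apply hP.not_isUnit
      refine isUnit_of_dvd_unit hg ?_
      exact (isUnit_iff_ne_zero.2 h0).map C
  · rw [pow_two]
    exact sq_dvd_aeval (isIntegral_adjoin (L := L) hd hF hnz) hP hJ hg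

/-- The algebraic data from a squarefree form `g` which contains the critical curve. -/
theorem exists_data {K : Type} [Field K] [CharZero K] {L : Type} [Field L] [IsAlgClosed L]
    [Algebra K L] {F : Fin 3 → MvPolynomial (Fin 3) K} {d : ℕ}
    (hF : ∀ i, (F i).IsHomogeneous d)
    (hnz : ∀ x : Fin 3 → L, (∀ i, aeval x (F i) = 0) → x = 0)
    {g : MvPolynomial (Fin 3) K} {D : ℕ} (hg : g.IsHomogeneous D) (hgs : Squarefree g)
    (hgF : g ∣ aeval F g) (hgJ : ∀ P, Irreducible P → P ∣ jf F → P ∣ g) :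
    ∃ (q c : MvPolynomial (Fin 3) K) (e t E : ℕ), PCFdata F g q c D e t E := by
  classical
  have hg0 : g ≠ 0 := hgs.ne_zero
  obtain ⟨q, hq⟩ := hgF
  have hcompD : (aeval F g).IsHomogeneous (d * D) := hg.aeval F hF
  have hqhom : ∃ e, q.IsHomogeneous e := by
    by_cases h0 : q = 0
    · exact ⟨0, by rw [h0]; exact isHomogeneous_zero _ _ _⟩
    · refine isHomogeneous_of_dvd hcompD ?_ ⟨g, by rw [hq, mul_comm]⟩
      rw [hq]
      exact mul_ne_zero hg0 h0
  obtain ⟨e, hqe⟩ := hqhom
  have hfac : ∀ P, Irreducible P → P ∣ jf F → P ∣ q := by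
    intro P hP hPJ
    have hPg : P ∣ g := hgJ P hP hPJ
    have h1 := sq_dvd (L := L) hF hnz hP hPJ (hPg.trans ⟨q, hq⟩)
    obtain ⟨g', rfl⟩ := hPg
    rw [hq, mul_assoc, pow_two] at h1
    have h2 : P ∣ g' * q := (mul_dvd_mul_iff_left hP.ne_zero).1 h1
    rcases hP.prime.dvd_or_dvd h2 with h3 | h3
    · obtain ⟨c, rfl⟩ := h3
      exact absurd (hgs P ⟨c, by ring⟩) hP.not_isUnit
    · exact h3
  have hJ0 : jf F ≠ 0 := by
    intro h0
    have h1 : ¬ IsUnit (g * X 0 + 1) := by
      intro hu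
      have h2 := MvPolynomial.isUnit_iff_totalDegree_of_isReduced.1 hu
      have h3 : g * X 0 + 1 = C (coeff 0 (g * X 0 + 1)) := totalDegree_eq_zero_iff_eq_C.1 h2.2
      have h4 : g * X 0 = C (coeff 0 (g * X 0 + 1) - 1) := by
        rw [C_sub, ← h3, C_1, add_sub_cancel_right]
      have h5 : (g * X 0).totalDegree = 0 := by rw [h4, totalDegree_C]
      rw [totalDegree_mul_of_isDomain hg0 (X_ne_zero 0), totalDegree_X] at h5
      omega
    have h2 : g * X 0 + 1 ≠ 0 := by
      intro h3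
      have h4 : g * X 0 = C (-1 : K) := by
        rw [C_neg, C_1]
        linear_combination h3
      have h5 : (g * X 0).totalDegree = 0 := by rw [h4, totalDegree_C]
      rw [totalDegree_mul_of_isDomain hg0 (X_ne_zero 0), totalDegree_X] at h5
      omega
    obtain ⟨P, hP, hPd⟩ := WfDvdMonoid.exists_irreducible_factor h1 h2
    have h3 : P ∣ g := hgJ P hP (by rw [h0]; exact dvd_zero _)
    have h4 : P ∣ 1 := by
      have := dvd_sub hPd (h3.mul_right (X 0))
      rwa [add_sub_cancel_left] at this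
    exact hP.not_isUnit (isUnit_of_dvd_one h4)
  obtain ⟨y, n, hy, hyJ, hJy⟩ := exists_squarefree_dvd_pow_of_ne_zero hJ0
  have hyq : y ∣ q := dvd_of_squarefree_of_irreducible y q hy
    fun P hP hPy => hfac P hP (hPy.trans hyJ)
  obtain ⟨Q, hQ⟩ := hJy.trans (pow_dvd_pow_of_dvd hyq n)
  have hQhom : ∃ t, Q.IsHomogeneous t := by
    by_cases h0 : q ^ n = 0
    · refine ⟨0, ?_⟩
      have : Q = 0 := by
        rw [h0] at hQ
        exact (mul_eq_zero.1 hQ.symm).resolve_left hJ0
      rw [this]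
      exact isHomogeneous_zero _ _ _
    · exact isHomogeneous_of_dvd (hqe.pow n) h0 ⟨jf F, by rw [hQ, mul_comm]⟩
  obtain ⟨t, hQt⟩ := hQhom
  exact ⟨q, Q, e, t, n, hg0, hg, hqe, hQt, hq, hQ⟩

end Pool.Agent.Helper28.PC
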